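import Pool.Agent.C4D58.Main

set_option autoImplicit false

open MeasureTheory

namespace Pool.Agent.Results.MP_c4dc6d_an.OffCentreDiscs

open Pool.Agent.C4D58

/-- Discs dilated about a point which is not their centre. For every finite set `E` of radii there
is `δ > 0` such that, whenever the distance from the origin to the boundary of the unit disc with
centre `v` is less than `δ`, the maximal operator of the partial Fourier integrals over the discs
`R • (v + B)`, `R ∈ E`, has squared norm at least `log₂ |E| / 32` on `L²`. -/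
theorem result (E : Finset ℝ) (hE : ∀ R ∈ E, 0 < R) :
    ∃ δ : ℝ, 0 < δ ∧ ∀ v : EuclideanSpace ℝ (Fin 2), |‖v‖ - 1| < δ →
      ∃ f : SchwartzMap (EuclideanSpace ℝ (Fin 2)) ℂ, f ≠ 0 ∧
        ENNReal.ofReal ((Nat.log 2 E.card : ℝ) / 32) *
            ∫⁻ x : EuclideanSpace ℝ (Fin 2), ‖f x‖ₑ ^ 2 ≤
          ∫⁻ x : EuclideanSpace ℝ (Fin 2),
            (⨆ R : ℝ, ⨆ (_ : R ∈ E),
              ‖∫ ξ in Metric.ball (R • v) R,
                Complex.exp (2 * (Real.pi : ℂ) * Complex.I * ((inner ℝ x ξ : ℝ) : ℂ)) *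
                  (∫ y : EuclideanSpace ℝ (Fin 2),
                    Complex.exp (-(2 * (Real.pi : ℂ) * Complex.I * ((inner ℝ y ξ : ℝ) : ℂ))) *
                      f y)‖ₑ) ^ 2 := by
  rcases Nat.eq_zero_or_pos (Nat.log 2 E.card) with h0 | hpos
  · refine ⟨1, one_pos, fun v _ => ⟨sS one_pos 0, ?_, by simp [h0]⟩⟩
    intro h1
    have h2 := nrm_pos (r := 1) one_pos
    unfold nrm at h2
    rw [h1] at h2
    simp at h2
  · have hcard : 2 ^ Nat.log 2 E.card ≤ E.card := by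
      apply Nat.pow_log_le_self
      intro h
      rw [h] at hpos
      simp at hpos
    have h1 : ∀ e : Metric.sphere (0 : V) 1, ∃ ρ : ℝ, 0 < ρ ∧ ∀ v : V, ‖v - e‖ < ρ →
        ∃ f : SchwartzMap V ℂ, 0 < ∫ x, ‖f x‖ ^ 2 ∧
        ENNReal.ofReal ((Nat.log 2 E.card : ℝ) / 32) * ∫⁻ x, ‖f x‖ₑ ^ 2 ≤
        ∫⁻ x, (⨆ R ∈ E, ‖discPartial v R f x‖ₑ) ^ 2 := fun e =>
      near_unit (mem_sphere_zero_iff_norm.mp e.2) hpos hE hcard
    choose ρ hρ hf using h1
    obtain ⟨δ, hδ, hcov⟩ := lebesgue_number_lemma_of_metric (isCompact_sphere (0 : V) 1)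
      (c := fun e : Metric.sphere (0 : V) 1 => Metric.ball (e : V) (ρ e))
      (fun e => Metric.isOpen_ball)
      (fun x hx => Set.mem_iUnion.mpr ⟨⟨x, hx⟩, Metric.mem_ball_self (hρ _)⟩)
    refine ⟨min δ (1 / 2), lt_min hδ (by norm_num), fun v hv => ?_⟩
    have hv1 : |‖v‖ - 1| < δ := lt_of_lt_of_le hv (min_le_left _ _)
    have hv2 : |‖v‖ - 1| < 1 / 2 := lt_of_lt_of_le hv (min_le_right _ _)
    have hv0 : 0 < ‖v‖ := by
      have := (abs_lt.mp hv2).1
      linarith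
    have hev : ‖v‖⁻¹ • v ∈ Metric.sphere (0 : V) 1 := by
      rw [mem_sphere_zero_iff_norm, norm_smul, norm_inv, norm_norm, inv_mul_cancel₀ hv0.ne']
    obtain ⟨e, he⟩ := hcov _ hev
    have hmem : v ∈ Metric.ball (‖v‖⁻¹ • v) δ := by
      rw [Metric.mem_ball, dist_eq_norm]
      have h3 : v - ‖v‖⁻¹ • v = (1 - ‖v‖⁻¹) • v := by rw [sub_smul, one_smul]
      rw [h3, norm_smul, Real.norm_eq_abs]
      have h4 : |1 - ‖v‖⁻¹| * ‖v‖ = |‖v‖ - 1| := by
        rw [← abs_of_pos hv0, ← abs_mul, abs_of_pos hv0, sub_mul, one_mul,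
          inv_mul_cancel₀ hv0.ne']
      rw [h4]
      exact hv1
    obtain ⟨f, hf1, hf2⟩ := hf e v (by simpa [Metric.mem_ball, dist_eq_norm] using he hmem)
    refine ⟨f, ?_, hf2⟩
    intro h
    rw [h] at hf1
    simp at hf1

end Pool.Agent.Results.MP_c4dc6d_an.OffCentreDiscs
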